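import Pool.Agent.Helper39.PF.Ineq

/-! # The path for `a = 3` -/

set_option linter.unusedVariables false

namespace Pool.Agent.Helper5.PF
open Finset Pool.Agent.Helper5.TV Pool.Agent.Helper5.AF Pool.Agent.Helper39.AF Pool.Agent.Helper39.PF
  MeasureTheory

/-- the function whose sign is the sign of the derivative in the height -/
noncomputable def FF (w β c t : ℝ) : ℝ :=
  Real.sin w * Real.cos β * Real.sinh (2*t) - Real.sin β * Real.cos w * Real.cosh (2*t)
    + Real.sin β * c

theorem arctan_sub_nonneg {Ku Kv β : ℝ} (hu : 0 ≤ Ku) (hv : 0 ≤ Kv) (hβ0 : 0 < β)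
    (hβ1 : β < Real.pi/2) :
    (β ≤ Real.arctan Kv - Real.arctan Ku) ↔
      0 ≤ (Kv - Ku)*Real.cos β - (1 + Ku*Kv)*Real.sin β := by
  have hp := Real.pi_pos
  have a1 := Real.arctan_lt_pi_div_two Kv
  have a2 := Real.arctan_nonneg.mpr hv
  have b1 := Real.arctan_lt_pi_div_two Ku
  have b2 := Real.arctan_nonneg.mpr hu
  have cu := Real.cos_arctan_pos Ku
  have cv := Real.cos_arctan_pos Kv
  have su : Real.sin (Real.arctan Ku) = Ku * Real.cos (Real.arctan Ku) := by
    have := Real.tan_arctan Ku
    rw [Real.tan_eq_sin_div_cos, div_eq_iff cu.ne'] at this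
    exact this
  have sv : Real.sin (Real.arctan Kv) = Kv * Real.cos (Real.arctan Kv) := by
    have := Real.tan_arctan Kv
    rw [Real.tan_eq_sin_div_cos, div_eq_iff cv.ne'] at this
    exact this
  have key : Real.sin (Real.arctan Kv - Real.arctan Ku - β)
      = Real.cos (Real.arctan Kv) * Real.cos (Real.arctan Ku) *
        ((Kv - Ku)*Real.cos β - (1 + Ku*Kv)*Real.sin β) := by
    rw [Real.sin_sub, Real.sin_sub, Real.cos_sub, su, sv]
    ring
  constructor
  · intro h
    have h1 : 0 ≤ Real.sin (Real.arctan Kv - Real.arctan Ku - β) :=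
      Real.sin_nonneg_of_nonneg_of_le_pi (by linarith) (by linarith)
    rw [key] at h1
    exact nonneg_of_mul_nonneg_right h1 (by positivity)
  · intro h
    by_contra hc
    rw [not_le] at hc
    have h1 : Real.sin (Real.arctan Kv - Real.arctan Ku - β) < 0 :=
      Real.sin_neg_of_neg_of_neg_pi_lt (by linarith) (by linarith)
    rw [key] at h1
    have : 0 ≤ Real.cos (Real.arctan Kv) * Real.cos (Real.arctan Ku) *
        ((Kv - Ku)*Real.cos β - (1 + Ku*Kv)*Real.sin β) := by positivity
    linarith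

theorem FF_key {u v β t : ℝ} (ht : 0 < t) (cu : Real.cos u ≠ 0) (cv : Real.cos v ≠ 0) :
    2 * (Real.cos v * Real.cos u * Real.sinh t^2) *
      ((Real.tan v/Real.tanh t - Real.tan u/Real.tanh t)*Real.cos β
        - (1 + Real.tan u/Real.tanh t * (Real.tan v/Real.tanh t))*Real.sin β)
      = FF (v-u) β (Real.cos (v+u)) t := by
  have hsh : 0 < Real.sinh t := Real.sinh_pos_iff.mpr ht
  have hch : 0 < Real.cosh t := Real.cosh_pos t
  unfold FF
  rw [Real.sin_sub, Real.cos_sub, Real.cos_add, Real.sinh_two_mul, Real.cosh_two_mul]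
  have g4 : Real.cosh t^2 - Real.sinh t^2 = 1 := by have := Real.cosh_sq t; linarith
  rw [Real.tanh_eq_sinh_div_cosh, Real.tan_eq_sin_div_cos, Real.tan_eq_sin_div_cos]
  field_simp
  linear_combination (Real.sin β * (Real.cos u * Real.cos v - Real.sin u * Real.sin v)) * g4

/-- the sign of the derivative in the height -/
theorem S_le_iff {x E t β : ℝ} (ht : 0 < t) (hx : Real.pi/4 < x) (hxE : x ≤ E)
    (hE : E ≤ Real.pi/2) (hβ0 : 0 < β) (hβ1 : β < Real.pi/2) :
    (DD (x+E) t + DD (E-x) t ≤ Real.pi - β) ↔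
      0 ≤ FF (Real.pi - 2*E) β (Real.cos (Real.pi - 2*x)) t := by
  have hp := Real.pi_pos
  have e1 : DD (x+E) t = Real.pi - DD (Real.pi - x - E) t := by
    have := DD_half_add ht (v := x + E - Real.pi/2)
    rw [show Real.pi/2 + (x+E-Real.pi/2) = x + E by ring,
      show Real.pi/2 - (x+E-Real.pi/2) = Real.pi - x - E by ring] at this
    exact this
  set v := Real.pi - x - E with hv
  set u := E - x with hu
  have v0 : 0 ≤ v := by rw [hv]; linarith
  have v1 : v < Real.pi/2 := by rw [hv]; linarith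
  have u0 : 0 ≤ u := by rw [hu]; linarith
  have u1 : u < Real.pi/2 := by rw [hu]; linarith
  have cv : 0 < Real.cos v := Real.cos_pos_of_mem_Ioo ⟨by linarith, v1⟩
  have cu : 0 < Real.cos u := Real.cos_pos_of_mem_Ioo ⟨by linarith, u1⟩
  have hsh : 0 < Real.sinh t := Real.sinh_pos_iff.mpr ht
  have hch : 0 < Real.cosh t := Real.cosh_pos t
  have hth : 0 < Real.tanh t := by rw [Real.tanh_eq_sinh_div_cosh]; positivity
  have tv : 0 ≤ Real.tan v := Real.tan_nonneg_of_nonneg_of_le_pi_div_two v0 v1.le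
  have tu : 0 ≤ Real.tan u := Real.tan_nonneg_of_nonneg_of_le_pi_div_two u0 u1.le
  rw [e1, DD_eq ht v0 v1, DD_eq ht u0 u1]
  have h1 := arctan_sub_nonneg (Ku := Real.tan u/Real.tanh t) (Kv := Real.tan v/Real.tanh t)
    (by positivity) (by positivity) hβ0 hβ1
  have h2 : (Real.pi - Real.arctan (Real.tan v / Real.tanh t) + Real.arctan (Real.tan u / Real.tanh t)
      ≤ Real.pi - β) ↔ (β ≤ Real.arctan (Real.tan v / Real.tanh t) - Real.arctan (Real.tan u / Real.tanh t)) := by
    constructor <;> intro h <;> linarith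
  rw [h2, h1]
  have g1 : Real.pi - 2*E = v - u := by rw [hv, hu]; ring
  have g2 : Real.pi - 2*x = v + u := by rw [hv, hu]; ring
  have key := FF_key (β := β) ht cu.ne' cv.ne'
  rw [← g1, ← g2] at key
  rw [← key]
  constructor
  · intro h; positivity
  · intro h
    exact nonneg_of_mul_nonneg_right h (by positivity)

theorem FF_up {w β c t t' η : ℝ} (hw0 : 0 ≤ w) (hw1 : w ≤ Real.pi/2) (hβ0 : 0 < β)
    (hβ1 : β < Real.pi/2) (htt : t ≤ t') (htη : t ≤ η)
    (hc : c < Real.cos β * Real.exp (-(2*η))) (h : 0 ≤ FF w β c t) (ht : 0 < t) :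
    0 ≤ FF w β c t' := by
  have hp := Real.pi_pos
  have sβ : 0 < Real.sin β := Real.sin_pos_of_pos_of_lt_pi hβ0 (by linarith)
  have cβ : 0 < Real.cos β := Real.cos_pos_of_mem_Ioo ⟨by linarith, hβ1⟩
  have sw : 0 ≤ Real.sin w := Real.sin_nonneg_of_nonneg_of_le_pi hw0 (by linarith)
  have cw : 0 ≤ Real.cos w := Real.cos_nonneg_of_mem_Icc ⟨by linarith, hw1⟩
  have e1 : ∀ r : ℝ, Real.sinh (2*r) - Real.cosh (2*r) = -Real.exp (-(2*r)) := by
    intro r
    have := Real.cosh_sub_sinh (2*r)
    linarith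
  rcases lt_or_ge w β with hw | hw
  · exfalso
    have h1 : Real.sin w * Real.cos β ≤ Real.sin β * Real.cos w := by
      have : 0 ≤ Real.sin (β - w) := Real.sin_nonneg_of_nonneg_of_le_pi (by linarith) (by linarith)
      rw [Real.sin_sub] at this
      linarith
    have h2 : 0 ≤ Real.sinh (2*t) := Real.sinh_nonneg_iff.mpr (by linarith)
    have h3 : FF w β c t ≤ Real.sin β * (c - Real.cos w * Real.exp (-(2*t))) := by
      unfold FF
      have h4 := e1 t
      have h5 : Real.sin w * Real.cos β * Real.sinh (2*t) ≤ Real.sin β * Real.cos w * Real.sinh (2*t) :=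
        mul_le_mul_of_nonneg_right h1 h2
      have h6 : Real.sin β * Real.cos w * Real.sinh (2*t) - Real.sin β * Real.cos w * Real.cosh (2*t)
          = - (Real.sin β * Real.cos w * Real.exp (-(2*t))) := by
        rw [← mul_sub, h4]; ring
      linarith
    have h7 : Real.cos β ≤ Real.cos w := Real.cos_le_cos_of_nonneg_of_le_pi hw0 (by linarith) hw.le
    have h8 : Real.exp (-(2*η)) ≤ Real.exp (-(2*t)) := Real.exp_le_exp.mpr (by linarith)
    have h9 : Real.cos β * Real.exp (-(2*η)) ≤ Real.cos w * Real.exp (-(2*t)) :=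
      mul_le_mul h7 h8 (Real.exp_pos _).le cw
    have h10 : Real.sin β * (c - Real.cos w * Real.exp (-(2*t))) < 0 :=
      mul_neg_of_pos_of_neg sβ (by linarith)
    linarith
  · have h1 : Real.sin β * Real.cos w ≤ Real.sin w * Real.cos β := by
      have : 0 ≤ Real.sin (w - β) := Real.sin_nonneg_of_nonneg_of_le_pi (by linarith) (by linarith)
      rw [Real.sin_sub] at this
      linarith
    have h2 : Real.cosh (2*t) ≤ Real.cosh (2*t') := by
      rw [Real.cosh_le_cosh, abs_of_pos (by linarith), abs_of_pos (by linarith)]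
      linarith
    have h3 : Real.cosh (2*t') - Real.cosh (2*t) ≤ Real.sinh (2*t') - Real.sinh (2*t) := by
      have h4 := e1 t
      have h5 := e1 t'
      have h6 : Real.exp (-(2*t')) ≤ Real.exp (-(2*t)) := Real.exp_le_exp.mpr (by linarith)
      linarith
    have h4 : 0 ≤ Real.sin w * Real.cos β := mul_nonneg sw cβ.le
    have h5 : FF w β c t' - FF w β c t = Real.sin w * Real.cos β * (Real.sinh (2*t') - Real.sinh (2*t))
        - Real.sin β * Real.cos w * (Real.cosh (2*t') - Real.cosh (2*t)) := by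
      unfold FF; ring
    have h6 : Real.sin w * Real.cos β * (Real.cosh (2*t') - Real.cosh (2*t))
        ≤ Real.sin w * Real.cos β * (Real.sinh (2*t') - Real.sinh (2*t)) :=
      mul_le_mul_of_nonneg_left h3 h4
    have h7 : Real.sin β * Real.cos w * (Real.cosh (2*t') - Real.cosh (2*t))
        ≤ Real.sin w * Real.cos β * (Real.cosh (2*t') - Real.cosh (2*t)) :=
      mul_le_mul_of_nonneg_right h1 (by linarith)
    linarith

/-- the vertical part: the growth rate is bounded by its values at the two ends -/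
theorem pp_vert {a : ℕ} {η xc E P β : ℝ} (hβ : β = Real.pi - a*xc) (hβ0 : 0 < β)
    (hβ1 : β < Real.pi/2) (hx : Real.pi/4 < xc) (hxE : xc ≤ E) (hE : E ≤ Real.pi/2)
    (hc : Real.cos (Real.pi - 2*xc) < Real.cos β * Real.exp (-(2*η)))
    (hP : pp a η xc E ≤ P)
    (hL : 4*lob (Real.pi/2 - E) + 2*lob (xc+E) + 2*lob (E-xc) ≤ P) {h : ℝ} (h0 : 0 < h)
    (h1 : h ≤ η) : pp a h xc E ≤ P := by
  have hp := Real.pi_pos
  have hax : (a:ℝ)*xc = Real.pi - β := by rw [hβ]; ring
  by_cases hF : 0 ≤ FF (Real.pi - 2*E) β (Real.cos (Real.pi - 2*xc)) h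
  · refine le_trans ?_ hP
    have hm : MonotoneOn (fun t => pp a t xc E) (Set.Icc h η) := by
      apply monotoneOn_of_deriv_nonneg (convex_Icc _ _)
      · intro t ht
        exact (pp_dh a (by linarith [ht.1]) xc E).continuousAt.continuousWithinAt
      · intro t ht
        rw [interior_Icc] at ht
        exact (pp_dh a (by linarith [ht.1]) xc E).differentiableAt.differentiableWithinAt
      · intro t ht
        rw [interior_Icc] at ht
        have ht0 : 0 < t := by linarith [ht.1]
        rw [(pp_dh a ht0 xc E).deriv]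
        have h2 := FF_up (w := Real.pi - 2*E) (β := β) (c := Real.cos (Real.pi - 2*xc)) (η := η)
          (by linarith) (by linarith) hβ0 hβ1 ht.1.le h1 hc hF h0
        rw [← S_le_iff ht0 hx hxE hE hβ0 hβ1] at h2
        linarith
    exact hm (Set.left_mem_Icc.mpr h1) (Set.right_mem_Icc.mpr h1) h1
  · have hlow : ∀ t, 0 < t → t ≤ h → pp a h xc E ≤ pp a t xc E := by
      intro t0 ht0 hth
      have hm : AntitoneOn (fun t => pp a t xc E) (Set.Icc t0 h) := by
        apply antitoneOn_of_deriv_nonpos (convex_Icc _ _)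
        · intro t ht
          exact (pp_dh a (by linarith [ht.1]) xc E).continuousAt.continuousWithinAt
        · intro t ht
          rw [interior_Icc] at ht
          exact (pp_dh a (by linarith [ht.1]) xc E).differentiableAt.differentiableWithinAt
        · intro t ht
          rw [interior_Icc] at ht
          have ht1 : 0 < t := by linarith [ht.1]
          rw [(pp_dh a ht1 xc E).deriv]
          have h2 : ¬ 0 ≤ FF (Real.pi - 2*E) β (Real.cos (Real.pi - 2*xc)) t := by
            intro h3
            exact hF (FF_up (η := η) (by linarith) (by linarith) hβ0 hβ1 ht.2.le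
              (by linarith [ht.2]) hc h3 ht1)
          rw [← S_le_iff ht1 hx hxE hE hβ0 hβ1, not_le] at h2
          linarith
      exact hm (Set.left_mem_Icc.mpr hth) (Set.right_mem_Icc.mpr hth) hth
    have hub : ∀ t, 0 < t → t ≤ h → pp a h xc E ≤ P + t*(2*a*xc + 4*E) := by
      intro t ht hth
      refine (hlow t ht hth).trans ?_
      rw [pp_eq]
      have g1 := GG_le_lob (u := xc+E) ht (by linarith)
      have g2 := GG_le_lob (u := E-xc) ht (by linarith)
      nlinarith
    apply le_of_forall_pos_le_add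
    intro ε hε
    have hK : 0 < 2*a*xc + 4*E := by
      have : 0 ≤ (a:ℝ)*xc := by rw [hax]; linarith
      linarith
    have h3 := hub (min h (ε/(2*a*xc + 4*E))) (lt_min h0 (by positivity)) (min_le_left _ _)
    have h4 : min h (ε/(2*a*xc + 4*E)) * (2*a*xc + 4*E) ≤ ε := by
      have := min_le_right h (ε/(2*a*xc + 4*E))
      calc min h (ε/(2*a*xc + 4*E)) * (2*a*xc + 4*E) ≤ ε/(2*a*xc + 4*E) * (2*a*xc + 4*E) := by
            gcongr
        _ = ε := by field_simp
    linarith

/-! ## Numerical bounds for `a = 3` -/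

theorem lob_six_four : lob (Real.pi/6) ≤ lob (Real.pi/4) + 2*Real.cos (Real.pi/6)
    - 2*Real.cos (Real.pi/4) - Real.pi/12 := by
  have hp := Real.pi_pos
  have hm : MonotoneOn (fun t => lob t - 2*Real.cos t - t) (Set.Icc (Real.pi/6) (Real.pi/4)) := by
    have hs : ∀ t ∈ Set.Icc (Real.pi/6) (Real.pi/4), 0 < Real.sin t := fun t ht =>
      Real.sin_pos_of_pos_of_lt_pi (by linarith [ht.1]) (by linarith [ht.2])
    have hd : ∀ t, 0 < Real.sin t → HasDerivAt (fun t => lob t - 2*Real.cos t - t)
        (-ls t - 2*(-Real.sin t) - 1) t := by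
      intro t ht
      exact ((hasDerivAt_lob ht.ne').sub ((Real.hasDerivAt_cos t).const_mul 2)).sub (hasDerivAt_id t)
    apply monotoneOn_of_deriv_nonneg (convex_Icc _ _)
    · intro t ht
      exact (hd t (hs t ht)).continuousAt.continuousWithinAt
    · intro t ht
      rw [interior_Icc] at ht
      exact (hd t (hs t (Set.Ioo_subset_Icc_self ht))).differentiableAt.differentiableWithinAt
    · intro t ht
      rw [interior_Icc] at ht
      have h1 := hs t (Set.Ioo_subset_Icc_self ht)
      rw [(hd t h1).deriv]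
      unfold ls
      have := Real.log_le_sub_one_of_pos (x := 2*Real.sin t) (by positivity)
      linarith
  have := hm (Set.left_mem_Icc.mpr (by linarith)) (Set.right_mem_Icc.mpr (by linarith))
    (by linarith : Real.pi/6 ≤ Real.pi/4)
  simp only at this
  linarith

theorem cos_092 : Real.cos 0.92 ≤ 0.6076 := by
  have hcb := Real.cos_bound (x := 0.46) (by rw [abs_of_pos (by norm_num)]; norm_num)
  have hc1 : Real.cos 0.46 ≤ 0.896533 := by
    have h := (abs_le.1 hcb).2
    rw [abs_of_pos (by norm_num : (0:ℝ) < 0.46)] at h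
    norm_num at h ⊢
    linarith
  have hc0 : 0 ≤ Real.cos 0.46 := by
    apply Real.cos_nonneg_of_neg_pi_div_two_le_of_le
    · have := Real.pi_gt_three; linarith
    · have := Real.pi_gt_three; linarith
  have : (0.92 : ℝ) = 2 * 0.46 := by norm_num
  rw [this, Real.cos_two_mul]
  nlinarith

/-- the two side terms at height zero -/
theorem side_terms {s : ℝ} (h0 : 0 ≤ s) (h1 : s ≤ Real.pi/2 - 0.92) :
    2*lob (Real.pi/2 - 0.92 - s) - 2*lob (Real.pi/2 - 0.92 + s) ≤ 0.2468 := by
  have hp := Real.pi_pos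
  have hp1 := Real.pi_gt_d4
  have hp2 := Real.pi_lt_d4
  set δ : ℝ := Real.pi/2 - 0.92 with hδ
  have hsinδ : Real.sin δ = Real.cos 0.92 := by rw [hδ, Real.sin_pi_div_two_sub]
  have hc92 : 0 ≤ Real.cos 0.92 := by
    apply Real.cos_nonneg_of_neg_pi_div_two_le_of_le <;> linarith
  have hD : 4*Real.sin δ^2 ≤ 1.4775 := by
    rw [hsinδ]
    have := cos_092
    nlinarith
  have hm : MonotoneOn (fun s => 2*(0.4775*s - 1.06*s^3) - (2*lob (δ - s) - 2*lob (δ + s)))
      (Set.Icc 0 δ) := by
    have hd : ∀ t ∈ Set.Ioo 0 δ, HasDerivAt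
        (fun s => 2*(0.4775*s - 1.06*s^3) - (2*lob (δ - s) - 2*lob (δ + s)))
        (2*(0.4775 - 1.06*(3*t^2)) - (2*(-ls (δ-t)*(-1)) - 2*(-ls (δ+t)*1))) t := by
      intro t ht
      have s1 : Real.sin (δ - t) ≠ 0 := (Real.sin_pos_of_pos_of_lt_pi (by linarith [ht.2])
        (by linarith [ht.1, ht.2])).ne'
      have s2 : Real.sin (δ + t) ≠ 0 := (Real.sin_pos_of_pos_of_lt_pi (by linarith [ht.1, ht.2])
        (by linarith [ht.1, ht.2])).ne'
      have d1 : HasDerivAt (fun s : ℝ => δ - s) (-1) t := by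
        simpa using (hasDerivAt_id t).const_sub δ
      have d2 : HasDerivAt (fun s : ℝ => δ + s) 1 t := by
        simpa using (hasDerivAt_id t).const_add δ
      have d3 : HasDerivAt (fun s => lob (δ - s)) (-ls (δ-t)*(-1)) t :=
        (hasDerivAt_lob s1).comp t d1
      have d4 : HasDerivAt (fun s => lob (δ + s)) (-ls (δ+t)*1) t :=
        (hasDerivAt_lob s2).comp t d2
      have d5 : HasDerivAt (fun s : ℝ => 0.4775*s - 1.06*s^3) (0.4775 - 1.06*(3*t^2)) t := by
        have e1 := (hasDerivAt_id t).const_mul (0.4775:ℝ)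
        have e2 := (hasDerivAt_pow 3 t).const_mul (1.06:ℝ)
        refine (e1.sub e2).congr_deriv ?_
        norm_num
      exact (d5.const_mul 2).sub ((d3.const_mul 2).sub (d4.const_mul 2))
    apply monotoneOn_of_deriv_nonneg (convex_Icc _ _)
    · apply Continuous.continuousOn
      have c1 : Continuous (fun s => lob (δ - s)) := lob_continuous.comp (by fun_prop)
      have c2 : Continuous (fun s => lob (δ + s)) := lob_continuous.comp (by fun_prop)
      fun_prop
    · intro t ht
      rw [interior_Icc] at ht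
      exact (hd t ht).differentiableAt.differentiableWithinAt
    · intro t ht
      rw [interior_Icc] at ht
      rw [(hd t ht).deriv]
      have s1 : 0 < Real.sin (δ - t) := (Real.sin_pos_of_pos_of_lt_pi (by linarith [ht.2])
        (by linarith [ht.1, ht.2]))
      have s2 : 0 < Real.sin (δ + t) := (Real.sin_pos_of_pos_of_lt_pi (by linarith [ht.1, ht.2])
        (by linarith [ht.1, ht.2]))
      have k1 : ls (δ-t) + ls (δ+t) ≤ 4*(Real.sin δ^2 - Real.sin t^2) - 1 := by
        unfold ls
        rw [← Real.log_mul (by positivity) (by positivity)]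
        have e1 : 2*Real.sin (δ-t)*(2*Real.sin (δ+t)) = 4*(Real.sin δ^2 - Real.sin t^2) := by
          rw [Real.sin_sub, Real.sin_add]
          have q1 := Real.sin_sq_add_cos_sq δ
          have q2 := Real.sin_sq_add_cos_sq t
          have q3 : Real.cos t^2 = 1 - Real.sin t^2 := by linarith
          have q4 : Real.cos δ^2 = 1 - Real.sin δ^2 := by linarith
          have : 2*(Real.sin δ*Real.cos t - Real.cos δ*Real.sin t)*(2*(Real.sin δ*Real.cos t
            + Real.cos δ*Real.sin t)) = 4*(Real.sin δ^2*Real.cos t^2 - Real.cos δ^2*Real.sin t^2) := by ring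
          rw [this, q3, q4]; ring
        have e2 : 0 < 2*Real.sin (δ-t)*(2*Real.sin (δ+t)) := by positivity
        have e3 := Real.log_le_sub_one_of_pos e2
        rw [e1] at e3 ⊢
        exact e3
      have k2 : 0.893*t ≤ Real.sin t := by
        have e1 := Real.sin_gt_sub_cube ht.1
        have e2 : t ≤ 0.6509 := by linarith [ht.2]
        have e3 : t^2 ≤ 0.6509^2 := by
          have := ht.1.le
          gcongr
        have e4 : t^3 = t*t^2 := by ring
        have e5 : t*t^2 ≤ t*0.6509^2 := mul_le_mul_of_nonneg_left e3 ht.1.le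
        rw [e4] at e1
        norm_num at e3 e5 ⊢
        linarith [ht.1]
      have k3 : (0.893*t)^2 ≤ Real.sin t^2 := by
        have := ht.1.le
        gcongr
      nlinarith [ht.1]
  have h2 := hm (Set.left_mem_Icc.mpr (by linarith : (0:ℝ) ≤ δ)) (⟨h0, h1⟩ : s ∈ Set.Icc 0 δ) h0
  simp only at h2
  rw [sub_zero, add_zero] at h2
  nlinarith [mul_nonneg (sq_nonneg (s - 0.3875)) (by linarith : (0:ℝ) ≤ s + 0.775)]

theorem L0_le {E : ℝ} (h1 : 0.92 ≤ E) (h2 : E ≤ Real.pi/2) :
    4*lob (Real.pi/2 - E) + 2*lob (0.92+E) + 2*lob (E-0.92) ≤ 4*lob (Real.pi/4) + 0.5 := by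
  have hp1 := Real.pi_gt_d4
  have hp2 := Real.pi_lt_d4
  have k1 := side_terms (s := Real.pi/2 - E) (by linarith) (by linarith)
  rw [show Real.pi/2 - 0.92 - (Real.pi/2 - E) = E - 0.92 by ring,
    show Real.pi/2 - 0.92 + (Real.pi/2 - E) = Real.pi - (0.92 + E) by ring, lob_pi_sub] at k1
  have k2 := lob_le_sixth (u := Real.pi/2 - E) (by linarith) (by linarith)
  have k3 := lob_six_four
  rw [Real.cos_pi_div_six, Real.cos_pi_div_four] at k3
  have k4 : Real.sqrt 3 < 1.73206 := by
    rw [Real.sqrt_lt' (by norm_num)]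
    norm_num
  have k5 : 1.4142 < Real.sqrt 2 := by
    apply Real.lt_sqrt_of_sq_lt
    norm_num
  norm_num at k4 k5 k1 k3 ⊢
  linarith

theorem Sad_eta3 {x η E : ℝ} (h : Sad 3 x η E) : 0.32 < η ∧ η < 0.34 := by
  have hp := Real.pi_pos
  have hp1 := Real.pi_gt_d4
  have hp2 := Real.pi_lt_d4
  have hη := h.hη
  have hx1 := h.hx1
  have hx3 := h.hx3
  have hax := h.ax_lt
  have hxp := h.xpos
  push_cast at *
  constructor
  · by_contra hc
    rw [not_lt] at hc
    have h1 := h.s1
    push_cast at h1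
    have h2 : Real.cos (Real.pi/8) ≤ Real.cos (3*x/2 - x) := by
      apply Real.cos_le_cos_of_nonneg_of_le_pi (by linarith) (by linarith) (by linarith)
    have h3 := Real.one_sub_sq_div_two_le_cos (x := Real.pi/8)
    have h4 : (Real.pi/8)^2 ≤ (3.1416/8)^2 := by gcongr
    have h5 : Real.sinh (3*η/2+η) ≤ Real.sinh (4/5) := Real.sinh_le_sinh.mpr (by norm_num at hc ⊢; linarith)
    have h6 := sinh_le_poly (y := 4/5) (by norm_num) (by norm_num)
    norm_num at h4 h6
    linarith
  · have hz : 3*η/2+η < 0.85 := by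
      have := h.z_lt (S := 0.952) (z0 := 0.85) (by norm_num) ?_ (by norm_num)
      · push_cast at this; exact this
      push_cast
      have e1 : Real.cos (3*x/2-x) ≤ Real.cos (Real.pi/10) := by
        apply Real.cos_le_cos_of_nonneg_of_le_pi (by positivity) (by linarith)
        norm_num at hx1; linarith
      have e2 := Real.cos_bound (x := Real.pi/10) (by rw [abs_of_pos (by positivity)]; linarith)
      rw [abs_of_pos (by positivity : 0 < Real.pi/10), abs_le] at e2
      have e3 : (Real.pi/10)^4 ≤ (3.15/10)^4 := by gcongr; linarith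
      have e4 : (3.14/10)^2 ≤ (Real.pi/10)^2 := by gcongr; linarith
      norm_num at e3 e4
      linarith [e2.2]
    linarith

theorem P_ge {x₀ η E₀ : ℝ} (h : Sad 3 x₀ η E₀) : 4*lob (Real.pi/4) + 0.5 ≤ pp 3 η x₀ E₀ := by
  have hp := Real.pi_pos
  have hp1 := Real.pi_gt_d4
  have hη := (Sad_eta3 h).1
  have h1 := h.le_max (x := Real.pi/4) (E := Real.pi/4) (by positivity) le_rfl (by linarith)
  rw [pp_eq 3 η (Real.pi/4) (Real.pi/4), sub_self, GG_zero, show Real.pi/4 + Real.pi/4 = Real.pi/2 by ring,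
    show Real.pi/2 - Real.pi/4 = Real.pi/4 by ring] at h1
  have h2 : GG (Real.pi/2) η = -(Real.pi*η/2) := by
    unfold GG
    rw [int_ll_half h.hη]
  rw [h2] at h1
  push_cast at h1
  norm_num at hη ⊢
  nlinarith

theorem star3 {h x : ℝ} (h0 : 0 < h) (h1 : h < 0.34) (hx0 : 0 ≤ x) (hx : x ≤ 0.92) : Star h x := by
  have hp := Real.pi_pos
  have hp1 := Real.pi_gt_d4
  have hp2 := Real.pi_lt_d4
  have hC1 := Real.one_le_cosh (2*h)
  have hC2 : Real.cosh (2*h)^2 ≤ 1.5529 := by
    rw [Real.cosh_sq]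
    have e1 : Real.sinh (2*h) ≤ Real.sinh (17/25) := Real.sinh_le_sinh.mpr (by norm_num at h1 ⊢; linarith)
    have e2 := sinh_le_poly (y := 17/25) (by norm_num) (by norm_num)
    have e3 : 0 ≤ Real.sinh (2*h) := Real.sinh_nonneg_iff.mpr (by linarith)
    have e4 : Real.sinh (2*h) ≤ 0.743542 := by
      refine e1.trans (e2.trans ?_)
      norm_num
    nlinarith
  rcases le_total x (Real.pi/4) with c | c
  · exact star_of_le (by linarith) hx0 c
  · have hz0 : Real.cos (2*x) ≤ 0 := by
      rw [← Real.cos_pi_div_two]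
      exact Real.cos_le_cos_of_nonneg_of_le_pi (by positivity) (by linarith) (by linarith)
    have hz1 : -0.2693 ≤ Real.cos (2*x) := by
      have e1 : Real.cos (2*x) = - Real.sin (2*x - Real.pi/2) := by
        rw [Real.sin_sub_pi_div_two]; ring
      have e2 : Real.sin (2*x - Real.pi/2) ≤ 2*x - Real.pi/2 := Real.sin_le (by linarith)
      rw [e1]
      norm_num at hx hp1 ⊢
      linarith
    have hC3 : Real.cosh (2*h) ≤ 1.2462 := by nlinarith
    set C := Real.cosh (2*h)
    set z := Real.cos (2*x)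
    constructor
    · nlinarith [mul_nonneg (by linarith : (0:ℝ) ≤ 0.2693 + z) (by nlinarith : (0:ℝ) ≤ 2 - (2*C-1)*(0.2693 - z)),
        mul_nonneg (sub_nonneg.mpr hC1) (sub_nonneg.mpr hC3)]
    · nlinarith

/-- **the path for `a = 3`** -/
theorem Sad_path3 {x₀ η E₀ : ℝ} (h : Sad 3 x₀ η E₀) : ∃ xc, PathOK 3 η xc (pp 3 η x₀ E₀) := by
  have hp := Real.pi_pos
  have hp1 := Real.pi_gt_d4
  have hp2 := Real.pi_lt_d4
  obtain ⟨hη1, hη2⟩ := Sad_eta3 h
  have hP := h.sixth_lt
  have hl := lob_sixth_gt
  refine ⟨0.92, ?_⟩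
  exact {
    ha := by norm_num
    hη := h.hη
    hx0 := by norm_num
    hx1 := by linarith
    hstar := fun t x t0 t1 x0 x1 => star3 t0 (by linarith) x0 x1
    hmax := fun x E x0 _ x2 x3 => h.le_max x0 x2 x3
    hmid := by
      push_cast
      norm_num at hη2 ⊢
      linarith
    hvert := fun t E t0 t1 g1 g2 => by
      apply pp_vert (a := 3) (η := η) (β := Real.pi - (3:ℕ)*0.92) rfl _ _ (by linarith) g1 g2 _
        (h.le_max (by norm_num) g1 g2) ((L0_le g1 g2).trans (P_ge h)) t0 t1
      · push_cast; linarith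
      · push_cast; linarith
      · have e1 : Real.cos (Real.pi - 2*0.92) ≤ 0.2693 := by
          have e2 : Real.cos (Real.pi - 2*0.92) = Real.sin (2*0.92 - Real.pi/2) := by
            rw [Real.sin_sub_pi_div_two, Real.cos_pi_sub]
          rw [e2]
          have e3 : Real.sin (2*0.92 - Real.pi/2) ≤ 2*0.92 - Real.pi/2 := Real.sin_le (by linarith)
          norm_num at e3 hp1 ⊢
          linarith
        have e4 : 0.32 ≤ Real.exp (-(2*η)) := by
          have := Real.add_one_le_exp (-(2*η))
          linarith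
        have e5 : 0.927 ≤ Real.cos (Real.pi - (3:ℕ)*0.92) := by
          have := Real.one_sub_sq_div_two_le_cos (x := Real.pi - (3:ℕ)*0.92)
          push_cast at this ⊢
          have e6 : (Real.pi - 3*0.92)^2 ≤ 0.382^2 := by
            have : 0 ≤ Real.pi - 3*0.92 := by linarith
            have : Real.pi - 3*0.92 ≤ 0.382 := by linarith
            gcongr
          norm_num at e6 this ⊢
          linarith
        nlinarith
    hside := fun E g1 g2 => by
      have := lob_le_sixth g1.le (by linarith)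
      linarith }

end Pool.Agent.Helper5.PF
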